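import Mathlib
import Pool.Agent.H761R3.Arn.Defs
import Pool.Agent.H761R3.Arn.Reduce
import Pool.Agent.Y617.MO.Red

/-!
Arnold's stability problem along one quadratic family of polynomial vector fields. The definitions
`Term`, `field`, `Valid`, `Solves`, `LyapStable`, `LocAsympStable` and `GlobAsympStable` are those of
`Pool.Agent.H761R3.Arn.Defs`.
-/

set_option autoImplicit false

namespace Pool.Agent.Results.MP_6fff33_lc.OneFamily

open Nat.Partrec
open Pool.Agent.H761R3.Arn

/-- The polynomial vector field `A + a B + a² C`. -/
noncomputable def fam {n : ℕ} (A B C : Fin n → MvPolynomial (Fin n) ℚ) (a : ℕ) :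
    Fin n → MvPolynomial (Fin n) ℚ :=
  fun i => A i + (a : MvPolynomial (Fin n) ℚ) * B i + ((a * a : ℕ) : MvPolynomial (Fin n) ℚ) * C i

/-- `S` is a notion of stability of the origin between global asymptotic stability and Lyapunov
stability. -/
def Between (S : (n : ℕ) → (Fin n → MvPolynomial (Fin n) ℚ) → Prop) : Prop :=
  (∀ n f, GlobAsympStable f → S n f) ∧ ∀ n f, S n f → LyapStable f

theorem between_lyap : Between (fun _ f => LyapStable f) :=
  ⟨fun _ _ h => h.1, fun _ _ h => h⟩

theorem between_loc : Between (fun _ f => LocAsympStable f) :=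
  ⟨fun _ _ h => ⟨h.1, 1, one_pos, fun x₀ _ => h.2 x₀⟩, fun _ _ h => h.1⟩

theorem between_glob : Between (fun _ f => GlobAsympStable f) :=
  ⟨fun _ _ h => h, fun _ _ h => h.1⟩

/-- the halting set as a set of natural numbers -/
def haltSet (a : ℕ) : Prop := (Code.eval (Denumerable.ofNat Code a) 0).Dom

theorem haltSet_re : REPred haltSet := by
  have h : Partrec fun a : ℕ => Code.eval (Denumerable.ofNat Code a) 0 :=
    Code.eval_part.comp (Primrec.ofNat Code).to_comp (Computable.const 0)
  exact h.dom_re

theorem haltSet_not_computable : ¬ ComputablePred haltSet := by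
  intro h
  apply ComputablePred.halting_problem 0
  obtain ⟨inst, hc⟩ := h
  have h2 : Computable fun c : Code => decide (haltSet (Encodable.encode c)) :=
    hc.comp Computable.encode
  refine ⟨fun c => Classical.dec _, h2.of_eq fun c => ?_⟩
  have h3 : haltSet (Encodable.encode c) ↔ (Code.eval c 0).Dom := by
    unfold haltSet
    rw [Denumerable.ofNat_encode]
  exact decide_eq_decide.2 h3

/-- There are a dimension `n`, a degree `d` and polynomial vector fields `A`, `B`, `C` on `ℝⁿ` with
rational coefficients such that the fields `f_a = A + a B + a² C` of the family (`a` a natural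
number) have degree at most `d` and vanish at the origin, and
(1) for every recursively enumerable set `P` of natural numbers there is a computable function `g`
such that the origin is not Lyapunov stable for `f_{g(m)}` if `m` is in `P`, and globally
asymptotically stable for `f_{g(m)}` if `m` is not in `P`;
(2) for every notion `S` of stability between global asymptotic stability and Lyapunov stability,
the set of all `a` such that the origin is `S`-stable for `f_a` is not recursively enumerable, and
for every degree bound `d' ≥ d` no algorithm decides `S`-stability for the polynomial vector fields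
with rational coefficients and degree at most `d'`;
(3) Lyapunov stability, local asymptotic stability and global asymptotic stability are such
notions. -/
theorem result : ∃ (n d : ℕ) (A B C : Fin n → MvPolynomial (Fin n) ℚ),
    (∀ (a : ℕ) (i : Fin n), (fam A B C a i).totalDegree ≤ d ∧
      MvPolynomial.constantCoeff (fam A B C a i) = 0) ∧
    (∀ P : ℕ → Prop, REPred P → ∃ g : ℕ → ℕ, Computable g ∧ ∀ m : ℕ,
      (P m → ¬ LyapStable (fam A B C (g m))) ∧ (¬ P m → GlobAsympStable (fam A B C (g m)))) ∧
    (∀ S : (n : ℕ) → (Fin n → MvPolynomial (Fin n) ℚ) → Prop, Between S →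
      (¬ REPred fun a => S n (fam A B C a)) ∧
      ∀ d' : ℕ, d ≤ d' → ¬ ∃ D : ℕ × List Term → Bool, Computable D ∧
        ∀ (k : ℕ) (L : List Term), Valid k d' L → (D (k, L) = true ↔ S k (field k L))) ∧
    (Between (fun _ f => LyapStable f) ∧ Between (fun _ f => LocAsympStable f) ∧
      Between (fun _ f => GlobAsympStable f)) := by
  classical
  obtain ⟨n, d, T0, T1, T2, hred⟩ := reduction haltSet_re
  have hfam : ∀ a, fam (field n T0) (field n T1) (field n T2) a = field n (La T0 T1 T2 a) := by
    intro a
    funext i
    rw [field_La]
    rfl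
  have key : ∀ P : ℕ → Prop, REPred P → ∃ g : ℕ → ℕ, Computable g ∧ ∀ m : ℕ,
      (P m → ¬ LyapStable (fam (field n T0) (field n T1) (field n T2) (g m))) ∧
        (¬ P m → GlobAsympStable (fam (field n T0) (field n T1) (field n T2) (g m))) := by
    intro P hP
    obtain ⟨c, hc, hcP⟩ := Pool.Agent.Y617.MO.exists_codes hP
    refine ⟨fun m => Encodable.encode (c m), Computable.encode.comp hc, fun m => ?_⟩
    have h1 : haltSet (Encodable.encode (c m)) ↔ P m := by
      rw [← hcP m]
      unfold haltSet
      rw [Denumerable.ofNat_encode]
    obtain ⟨_, h2, h3⟩ := hred (Encodable.encode (c m))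
    rw [h1] at h2 h3
    rw [hfam]
    exact ⟨h3, h2⟩
  refine ⟨n, d, field n T0, field n T1, field n T2, ?_, key, ?_, between_lyap, between_loc,
    between_glob⟩
  · intro a i
    rw [hfam]
    exact (hred a).1 i
  · intro S hS
    have hiff : ∀ a, S n (field n (La T0 T1 T2 a)) ↔ ¬ haltSet a := by
      intro a
      obtain ⟨_, h2, h3⟩ := hred a
      constructor
      · intro h4 h5
        exact h3 h5 (hS.2 _ _ h4)
      · intro h4
        exact hS.1 _ _ (h2 h4)
    constructor
    · intro hre
      apply haltSet_not_computable
      rw [ComputablePred.computable_iff_re_compl_re]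
      refine ⟨haltSet_re, hre.of_eq fun a => ?_⟩
      rw [hfam, hiff]
    · rintro d' hd' ⟨D, hD, hL⟩
      apply haltSet_not_computable
      have h1 : Computable fun a : ℕ => D (n, La T0 T1 T2 a) :=
        hD.comp (Computable.pair (Computable.const n) (La_computable T0 T1 T2))
      have h2 : Computable fun a : ℕ => !(D (n, La T0 T1 T2 a)) := (Primrec.not.to_comp).comp h1
      refine ⟨fun a => Classical.dec _, h2.of_eq fun a => ?_⟩
      have hv : Valid n d' (La T0 T1 T2 a) := fun i =>
        ⟨((hred a).1 i).1.trans hd', ((hred a).1 i).2⟩
      have h3 := (hL n _ hv).trans (hiff a)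
      by_cases hP : haltSet a
      · have : D (n, La T0 T1 T2 a) ≠ true := fun h => (h3.1 h) hP
        simp [hP, this]
      · have : D (n, La T0 T1 T2 a) = true := h3.2 hP
        simp [hP, this]

end Pool.Agent.Results.MP_6fff33_lc.OneFamily
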